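import Pool.Agent.Helper75.Tile.Defs

set_option autoImplicit false

open MeasureTheory Set Filter Topology
open scoped ENNReal symmDiff
open Pool.Agent.Helper75.Tile

namespace Pool.Agent.Helper99.Tile

/-! ### Translates -/

theorem measurableSet_sh {Ω : Set ℝ} (hΩ : MeasurableSet Ω) (t : ℝ) : MeasurableSet (sh Ω t) :=
  (measurable_id.sub_const t) hΩ

theorem sh_eq_preimage (Ω : Set ℝ) (t : ℝ) : sh Ω t = (fun x => x + (-t)) ⁻¹' Ω := by
  ext x; simp [sh, sub_eq_add_neg]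

/-- translation invariance -/
theorem volume_sh (Ω : Set ℝ) (t : ℝ) : volume (sh Ω t) = volume Ω := by
  rw [sh_eq_preimage, measure_preimage_add_right]

theorem sh_sh (Ω : Set ℝ) (s t : ℝ) : sh (sh Ω s) t = sh Ω (s + t) := by
  ext x; simp only [sh, mem_ofPred_eq]; rw [show x - t - s = x - (s + t) by ring]

theorem sh_inter (S T : Set ℝ) (t : ℝ) : sh (S ∩ T) t = sh S t ∩ sh T t := by
  ext x; simp [sh]

theorem volume_inter_sh (S Ω : Set ℝ) (l t : ℝ) :
    volume (S ∩ sh Ω (l - t)) = volume (sh S t ∩ sh Ω l) := by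
  rw [← volume_sh (S ∩ sh Ω (l - t)) t, sh_inter, sh_sh, sub_add_cancel]

theorem mem_sh {Ω : Set ℝ} {t x : ℝ} : x ∈ sh Ω t ↔ x - t ∈ Ω := Iff.rfl

/-! ### Separation -/

/-- the overlap of `Ω` with a small translate is positive -/
theorem overlap_pos {Ω : Set ℝ} (hΩ : MeasurableSet Ω) (h0 : 0 < volume Ω) (h1 : volume Ω ≠ ∞) :
    ∃ d0 : ℝ, 0 < d0 ∧ ∀ t : ℝ, |t| < d0 → 0 < volume (Ω ∩ sh Ω t) := by
  let F : C(ℝ × ℝ, ℝ) := ⟨fun p => p.2 - p.1, by fun_prop⟩
  have hF : Tendsto (fun a => F.curry a) (𝓝 0) (𝓝 (F.curry 0)) := F.curry.continuous.tendsto 0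
  have hmp : ∀ a : ℝ, MeasurePreserving (F.curry a) (volume : Measure ℝ) volume := by
    intro a
    have : (F.curry a : ℝ → ℝ) = fun x => x + (-a) := by
      ext x; simp [F, sub_eq_add_neg]
    rw [this]
    exact measurePreserving_add_right volume (-a)
  have key := tendsto_measure_symmDiff_preimage_nhds_zero (μ := (volume : Measure ℝ))
    (ν := (volume : Measure ℝ)) (s := Ω) hF (Eventually.of_forall hmp) (hmp 0)
    hΩ.nullMeasurableSet h1
  have hset : ∀ a : ℝ, (F.curry a : ℝ → ℝ) ⁻¹' Ω = sh Ω a := by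
    intro a; ext x; simp [F, sh]
  simp only [hset] at key
  have hz : sh Ω 0 = Ω := by ext x; simp [sh]
  rw [hz] at key
  have hev : ∀ᶠ a in 𝓝 (0 : ℝ), volume (sh Ω a ∆ Ω) < volume Ω := key.eventually (gt_mem_nhds h0)
  obtain ⟨d, hd, hball⟩ := Metric.eventually_nhds_iff.1 hev
  refine ⟨d, hd, fun t ht => ?_⟩
  have h2 := hball (y := t) (by simpa [Real.dist_eq] using ht)
  by_contra hcon
  have h3 : volume (Ω ∩ sh Ω t) = 0 := by
    simpa using hcon
  have h4 : volume Ω ≤ volume (Ω ∩ sh Ω t) + volume (Ω \ sh Ω t) :=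
    (measure_inter_add_sdiff Ω (measurableSet_sh hΩ t)).ge
  have h5 : volume (Ω \ sh Ω t) ≤ volume (sh Ω t ∆ Ω) :=
    measure_mono (fun x hx => Or.inr hx)
  rw [h3, zero_add] at h4
  exact absurd (h4.trans h5) (not_le.2 h2)

theorem tiling_disjoint {Ω B : Set ℝ} (hΩ : MeasurableSet Ω) (h1 : volume Ω ≠ ∞)
    (hB : IsTiling Ω B) {b b' : ℝ} (hb : b ∈ B) (hb' : b' ∈ B) (hne : b ≠ b') :
    volume (sh Ω b ∩ sh Ω b') = 0 := by
  classical
  have h := hB.2 (sh Ω b) (measurableSet_sh hΩ b)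
  have hpair : (∑ l ∈ ({⟨b, hb⟩, ⟨b', hb'⟩} : Finset B), volume (sh Ω b ∩ sh Ω (l : ℝ)))
      ≤ volume (sh Ω b) := by
    rw [← h]
    exact ENNReal.sum_le_tsum _
  rw [Finset.sum_pair (by simpa using hne), inter_self, volume_sh] at hpair
  have h2 : volume Ω + volume (sh Ω b ∩ sh Ω b') ≤ volume Ω + 0 := by simpa using hpair
  have h3 := (ENNReal.add_le_add_iff_left h1).1 h2
  simpa using h3

/-- **Separation**: the distance between distinct points of a tiling by `Ω` is at least a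
constant depending only on `Ω`. -/
theorem separated {Ω : Set ℝ} (hΩ : MeasurableSet Ω) (h0 : 0 < volume Ω) (h1 : volume Ω ≠ ∞) :
    ∃ d0 : ℝ, 0 < d0 ∧ ∀ B, IsTiling Ω B → ∀ b ∈ B, ∀ b' ∈ B, b ≠ b' → d0 ≤ |b - b'| := by
  obtain ⟨d0, hd0, hov⟩ := overlap_pos hΩ h0 h1
  refine ⟨d0, hd0, fun B hB b hb b' hb' hne => ?_⟩
  by_contra hcon
  push Not at hcon
  have h2 := hov (b - b') hcon
  have h3 : volume (Ω ∩ sh Ω (b - b')) = 0 := by
    rw [volume_inter_sh]
    rw [inter_comm]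
    exact tiling_disjoint hΩ h1 hB hb hb' hne
  rw [h3] at h2
  exact lt_irrefl _ h2

/-! ### Counting -/

section counting

variable {B : Set ℝ} {d0 : ℝ}

/-- separation hypothesis in a convenient form -/
def Sep (B : Set ℝ) (d0 : ℝ) : Prop := ∀ b ∈ B, ∀ b' ∈ B, b ≠ b' → d0 ≤ |b - b'|

theorem floor_injOn (hd : 0 < d0) (hs : Sep B d0) (x : ℝ) :
    Set.InjOn (fun b : ℝ => ⌊(b - x) / d0⌋) B := by
  intro b hb b' hb' h
  by_contra hne
  have h1 := hs b hb b' hb' hne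
  have h2 : |(b - x) / d0 - (b' - x) / d0| < 1 := Int.abs_sub_lt_one_of_floor_eq_floor h
  have h3 : (b - x) / d0 - (b' - x) / d0 = (b - b') / d0 := by ring
  rw [h3, abs_div, abs_of_pos hd, div_lt_one hd] at h2
  linarith

theorem image_floor_subset (hd : 0 < d0) (x y : ℝ) :
    (fun b : ℝ => ⌊(b - x) / d0⌋) '' (B ∩ Icc x y) ⊆ Icc 0 ⌊(y - x) / d0⌋ := by
  rintro _ ⟨b, ⟨-, hb⟩, rfl⟩
  constructor
  · exact Int.floor_nonneg.2 (div_nonneg (by linarith [hb.1]) hd.le)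
  · exact Int.floor_le_floor (div_le_div_of_nonneg_right (by linarith [hb.2]) hd.le)

theorem finite_inter (hd : 0 < d0) (hs : Sep B d0) (a b : ℝ) : (B ∩ Icc a b).Finite := by
  refine Set.Finite.of_finite_image (f := fun b : ℝ => ⌊(b - a) / d0⌋) ?_
    ((floor_injOn hd hs a).mono inter_subset_left)
  exact (Set.finite_Icc _ _).subset (image_floor_subset hd a b)

theorem finite_Ioc (hd : 0 < d0) (hs : Sep B d0) (a b : ℝ) : (B ∩ Ioc a b).Finite :=
  (finite_inter hd hs a b).subset (inter_subset_inter_right _ Ioc_subset_Icc_self)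

theorem cnt_nonneg (Λ : Set ℝ) (a b : ℝ) : 0 ≤ cnt Λ a b := by
  unfold cnt; positivity

theorem cnt_add (hd : 0 < d0) (hs : Sep B d0) {x y z : ℝ} (hxy : x ≤ y) (hyz : y ≤ z) :
    cnt B x z = cnt B x y + cnt B y z := by
  unfold cnt
  have h : B ∩ Ioc x z = (B ∩ Ioc x y) ∪ (B ∩ Ioc y z) := by
    rw [← inter_union_distrib_left, Ioc_union_Ioc_eq_Ioc hxy hyz]
  have hdis : Disjoint (B ∩ Ioc x y) (B ∩ Ioc y z) := by
    rw [Set.disjoint_left]
    rintro t ⟨-, h1⟩ ⟨-, h2⟩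
    exact absurd h1.2 (not_le.2 h2.1)
  rw [h, Set.ncard_union_eq hdis (finite_Ioc hd hs _ _) (finite_Ioc hd hs _ _)]
  push_cast
  rfl

theorem cnt_mono_right (hd : 0 < d0) (hs : Sep B d0) {x y z : ℝ} (hxy : x ≤ y) (hyz : y ≤ z) :
    cnt B x y ≤ cnt B x z := by
  rw [cnt_add hd hs hxy hyz]
  linarith [cnt_nonneg B y z]

theorem cnt_le (hd : 0 < d0) (hs : Sep B d0) {x y : ℝ} (hxy : x ≤ y) :
    (cnt B x y : ℝ) ≤ (y - x) / d0 + 1 := by
  have h1 : (B ∩ Ioc x y).ncard ≤ (Icc (0 : ℤ) ⌊(y - x) / d0⌋).ncard := by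
    rw [← ((floor_injOn hd hs x).mono inter_subset_left).ncard_image]
    refine Set.ncard_le_ncard ?_ (Set.finite_Icc _ _)
    refine Subset.trans ?_ (image_floor_subset (B := B) hd x y)
    exact image_mono (inter_subset_inter_right _ Ioc_subset_Icc_self)
  have h2 : ((Icc (0 : ℤ) ⌊(y - x) / d0⌋).ncard : ℤ) = ⌊(y - x) / d0⌋ + 1 := by
    have h0 : 0 ≤ ⌊(y - x) / d0⌋ := Int.floor_nonneg.2 (div_nonneg (by linarith) hd.le)
    rw [← Finset.coe_Icc, Set.ncard_coe_finset, Int.card_Icc]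
    omega
  have h3 : cnt B x y ≤ ⌊(y - x) / d0⌋ + 1 := by
    unfold cnt
    rw [← h2]
    exact_mod_cast h1
  calc (cnt B x y : ℝ) ≤ ((⌊(y - x) / d0⌋ + 1 : ℤ) : ℝ) := by exact_mod_cast h3
    _ ≤ (y - x) / d0 + 1 := by
      push_cast
      linarith [Int.floor_le ((y - x) / d0)]

/-- at most one point in a short interval -/
theorem cnt_le_one (hd : 0 < d0) (hs : Sep B d0) {x y : ℝ} (hxy : y - x ≤ d0) :
    cnt B x y ≤ 1 := by
  have : (B ∩ Ioc x y).ncard ≤ 1 := by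
    rw [Set.ncard_le_one (finite_Ioc hd hs _ _)]
    rintro a ⟨ha, ha'⟩ b ⟨hb, hb'⟩
    by_contra hne
    have h1 := hs a ha b hb hne
    have h2 : |a - b| < y - x := by
      rw [abs_lt]
      constructor <;> linarith [ha'.1, ha'.2, hb'.1, hb'.2]
    linarith
  unfold cnt
  exact_mod_cast this

end counting

/-! ### The shifted tiling -/

theorem shift_tiling {Ω Λ : Set ℝ} (hΛ : IsTiling Ω Λ) (t : ℝ) :
    IsTiling Ω {x | x + t ∈ Λ} := by
  refine ⟨?_, fun S hS => ?_⟩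
  · exact hΛ.1.preimage (add_left_injective t)
  · let e : {x : ℝ | x + t ∈ Λ} ≃ Λ :=
      { toFun := fun x => ⟨x.1 + t, x.2⟩
        invFun := fun y => ⟨y.1 - t, by simp⟩
        left_inv := fun x => by ext; simp
        right_inv := fun y => by ext; simp }
    have h := hΛ.2 (sh S t) (measurableSet_sh hS t)
    rw [volume_sh] at h
    rw [← h, ← e.tsum_eq]
    congr 1
    ext x
    have : (x : ℝ) = (e x : ℝ) - t := by simp [e]
    rw [this, volume_inter_sh]

theorem cnt_shift (Λ : Set ℝ) (t a b : ℝ) : cnt {x | x + t ∈ Λ} a b = cnt Λ (a + t) (b + t) := by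
  unfold cnt
  congr 1
  rw [← Set.ncard_image_of_injective _ (add_left_injective t)]
  congr 1
  ext y
  simp only [mem_image, mem_inter_iff, mem_ofPred_eq, mem_Ioc]
  constructor
  · rintro ⟨x, ⟨h1, h2, h3⟩, rfl⟩
    exact ⟨h1, by linarith, by linarith⟩
  · rintro ⟨h1, h2, h3⟩
    exact ⟨y - t, ⟨by simpa using h1, by linarith, by linarith⟩, by ring⟩

/-! ### The counting function as a sum of indicators -/

/-- the counting function with values in `[0, ∞]` -/
noncomputable def cntE (Λ : Set ℝ) (τ x : ℝ) : ℝ≥0∞ :=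
  ∑' l : Λ, (Ico ((l : ℝ) - τ) l).indicator (fun _ => (1 : ℝ≥0∞)) x

theorem cntE_measurable {Λ : Set ℝ} (hΛ : Λ.Countable) (τ : ℝ) : Measurable (cntE Λ τ) := by
  have : Countable Λ := hΛ.to_subtype
  unfold cntE
  exact Measurable.tsum fun l => measurable_const.indicator measurableSet_Ico

theorem cntE_eq_encard (Λ : Set ℝ) (τ x : ℝ) : cntE Λ τ x = ((Λ ∩ Ioc x (x + τ)).encard : ℝ≥0∞) := by
  rw [← ENNReal.tsum_set_one, tsum_subtype (Λ ∩ Ioc x (x + τ)) (fun _ => (1 : ℝ≥0∞))]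
  unfold cntE
  rw [tsum_subtype Λ (fun l : ℝ => (Ico (l - τ) l).indicator (fun _ => (1 : ℝ≥0∞)) x)]
  congr 1
  ext l
  by_cases h1 : l ∈ Λ
  · by_cases h2 : x ∈ Ico (l - τ) l
    · have h3 : l ∈ Λ ∩ Ioc x (x + τ) := ⟨h1, h2.2, by linarith [h2.1]⟩
      rw [indicator_of_mem h1, indicator_of_mem h2, indicator_of_mem h3]
    · have h3 : l ∉ Λ ∩ Ioc x (x + τ) := by
        rintro ⟨-, h4, h5⟩
        exact h2 ⟨by linarith, h4⟩
      rw [indicator_of_mem h1, indicator_of_notMem h2, indicator_of_notMem h3]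
  · have h3 : l ∉ Λ ∩ Ioc x (x + τ) := fun h => h1 h.1
    rw [indicator_of_notMem h1, indicator_of_notMem h3]

theorem cntE_eq {Λ : Set ℝ} {d0 : ℝ} (hd : 0 < d0) (hs : Sep Λ d0) (τ x : ℝ) :
    (cntE Λ τ x).toReal = cnt Λ x (x + τ) := by
  rw [cntE_eq_encard, cnt, ← (finite_Ioc hd hs x (x + τ)).cast_ncard_eq]
  simp

theorem cntE_ne_top {Λ : Set ℝ} {d0 : ℝ} (hd : 0 < d0) (hs : Sep Λ d0) (τ x : ℝ) :
    cntE Λ τ x ≠ ∞ := by
  rw [cntE_eq_encard, ← (finite_Ioc hd hs x (x + τ)).cast_ncard_eq]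
  simp

theorem Dl_eq {Λ : Set ℝ} {d0 : ℝ} (hd : 0 < d0) (hs : Sep Λ d0) (τ : ℝ) (l : ℤ) (x : ℝ) :
    Dl Λ τ l x = l - (cntE Λ τ x).toReal := by
  rw [cntE_eq hd hs, Dl]
  push_cast
  rfl

theorem Dl_measurable' {Λ : Set ℝ} (hΛ : Λ.Countable) {d0 : ℝ} (hd : 0 < d0) (hs : Sep Λ d0)
    (τ : ℝ) (l : ℤ) : Measurable (Dl Λ τ l) := by
  have : Dl Λ τ l = fun x => (l : ℝ) - (cntE Λ τ x).toReal := by
    ext x; exact Dl_eq hd hs τ l x
  rw [this]
  exact measurable_const.sub (cntE_measurable hΛ τ).ennreal_toReal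

theorem lintegral_cntE {Ω Λ : Set ℝ} (hΛ : IsTiling Ω Λ) {τ : ℝ} (x : ℝ) :
    ∫⁻ y in Ω, cntE Λ τ (x - y) = ENNReal.ofReal τ := by
  have : Countable Λ := hΛ.1.to_subtype
  unfold cntE
  rw [lintegral_tsum]
  · have h := hΛ.2 (Ioc x (x + τ)) measurableSet_Ioc
    rw [Real.volume_Ioc, show x + τ - x = τ by ring] at h
    rw [← h]
    congr 1
    ext l
    have : (fun y => (Ico ((l : ℝ) - τ) l).indicator (fun _ => (1 : ℝ≥0∞)) (x - y))
        = (Ioc (x - (l : ℝ)) (x - l + τ)).indicator (fun _ => (1 : ℝ≥0∞)) := by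
      ext y
      by_cases hy : x - y ∈ Ico ((l : ℝ) - τ) l
      · have hy' : y ∈ Ioc (x - (l : ℝ)) (x - l + τ) := ⟨by linarith [hy.2], by linarith [hy.1]⟩
        rw [indicator_of_mem hy, indicator_of_mem hy']
      · have hy' : y ∉ Ioc (x - (l : ℝ)) (x - l + τ) := by
          rintro ⟨h1, h2⟩
          exact hy ⟨by linarith, by linarith⟩
        rw [indicator_of_notMem hy, indicator_of_notMem hy']
    rw [this, lintegral_indicator measurableSet_Ioc, Measure.restrict_restrict measurableSet_Ioc,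
      lintegral_one, Measure.restrict_apply_univ]
    rw [← volume_sh (Ioc (x - (l : ℝ)) (x - l + τ) ∩ Ω) l, sh_inter]
    congr 2
    ext y
    simp only [sh, mem_ofPred_eq, mem_Ioc]
    constructor
    · rintro ⟨h1, h2⟩; exact ⟨by linarith, by linarith⟩
    · rintro ⟨h1, h2⟩; exact ⟨by linarith, by linarith⟩
  · intro l
    exact ((measurable_const.indicator measurableSet_Ico).comp
      (measurable_const.sub measurable_id)).aemeasurable

/-! ### Properties of `Dl` -/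

theorem Dl_sub {Λ : Set ℝ} {d0 : ℝ} (hd : 0 < d0) (hs : Sep Λ d0) {τ : ℝ} (hτ : 0 ≤ τ) (l : ℤ)
    {x y : ℝ} (hxy : x ≤ y) :
    Dl Λ τ l y - Dl Λ τ l x = (cnt Λ x y : ℝ) - cnt Λ (x + τ) (y + τ) := by
  have h1 := cnt_add hd hs (x := x) (y := y) (z := y + τ) hxy (by linarith)
  have h2 := cnt_add hd hs (x := x) (y := x + τ) (z := y + τ) (by linarith) (by linarith)
  unfold Dl
  have h3 : (l - cnt Λ y (y + τ)) - (l - cnt Λ x (x + τ)) = cnt Λ x y - cnt Λ (x + τ) (y + τ) := by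
    linarith
  exact_mod_cast h3

theorem Dl_abs_sub {Λ : Set ℝ} {d0 : ℝ} (hd : 0 < d0) (hs : Sep Λ d0) {τ : ℝ} (hτ : 0 ≤ τ) (l : ℤ)
    (x y : ℝ) : |Dl Λ τ l x - Dl Λ τ l y| ≤ |x - y| / d0 + 1 := by
  have key : ∀ x y : ℝ, x ≤ y → |Dl Λ τ l y - Dl Λ τ l x| ≤ (y - x) / d0 + 1 := by
    intro x y hxy
    rw [Dl_sub hd hs hτ l hxy]
    have h1 := cnt_le hd hs hxy
    have h2 := cnt_le hd hs (x := x + τ) (y := y + τ) (by linarith)
    have h3 : (0 : ℝ) ≤ cnt Λ x y := by exact_mod_cast cnt_nonneg Λ x y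
    have h4 : (0 : ℝ) ≤ cnt Λ (x + τ) (y + τ) := by exact_mod_cast cnt_nonneg Λ _ _
    rw [show y + τ - (x + τ) = y - x by ring] at h2
    rw [abs_le]
    constructor <;> linarith
  rcases le_total x y with h | h
  · rw [abs_sub_comm, abs_sub_comm x y, abs_of_nonneg (sub_nonneg.2 h)]
    exact key x y h
  · rw [abs_of_nonneg (sub_nonneg.2 h)]
    exact key y x h

theorem Dl_abs_le {Λ : Set ℝ} {d0 : ℝ} (hd : 0 < d0) (hs : Sep Λ d0) {τ : ℝ} (hτ : 0 ≤ τ) (l : ℤ)
    (x : ℝ) : |Dl Λ τ l x| ≤ |(l : ℝ)| + (τ / d0 + 1) := by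
  unfold Dl
  push_cast
  refine (abs_sub _ _).trans (add_le_add le_rfl ?_)
  have h1 := cnt_le hd hs (x := x) (y := x + τ) (by linarith)
  rw [abs_of_nonneg (by exact_mod_cast cnt_nonneg Λ _ _)]
  rwa [show x + τ - x = τ by ring] at h1

/-- The difference function is annihilated by convolution with `1_Ω`. -/
theorem Dl_annihilated' {Ω Λ : Set ℝ} (h1 : volume Ω ≠ ∞)
    (hΛ : IsTiling Ω Λ) {d0 : ℝ} (hd : 0 < d0) (hs : Sep Λ d0) (l : ℕ) (x : ℝ) :
    ∫ y in Ω, Dl Λ (l * (volume Ω).toReal) l (x - y) = 0 := by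
  set m := (volume Ω).toReal with hm
  have hfin : IsFiniteMeasure (volume.restrict Ω) := ⟨by
    rw [Measure.restrict_apply_univ]; exact lt_top_iff_ne_top.2 h1⟩
  set τ : ℝ := l * m with hτ
  have hm0 : 0 ≤ m := ENNReal.toReal_nonneg
  have hτ0 : 0 ≤ τ := by positivity
  have hmeas : Measurable (fun y : ℝ => cntE Λ τ (x - y)) :=
    (cntE_measurable hΛ.1 τ).comp (measurable_const.sub measurable_id)
  have hint : ∫ y in Ω, (cntE Λ τ (x - y)).toReal = τ := by
    rw [integral_toReal hmeas.aemeasurable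
      (ae_of_all _ fun y => lt_top_iff_ne_top.2 (cntE_ne_top hd hs τ _)), lintegral_cntE hΛ,
      ENNReal.toReal_ofReal hτ0]
  have hI : Integrable (fun y : ℝ => (cntE Λ τ (x - y)).toReal) (volume.restrict Ω) := by
    refine Integrable.of_bound hmeas.ennreal_toReal.aestronglyMeasurable (τ / d0 + 1)
      (ae_of_all _ fun y => ?_)
    rw [cntE_eq hd hs, Real.norm_eq_abs, abs_of_nonneg (by exact_mod_cast cnt_nonneg Λ _ _)]
    have h1 := cnt_le hd hs (x := x - y) (y := x - y + τ) (by linarith)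
    rwa [show x - y + τ - (x - y) = τ by ring] at h1
  have heq : ∀ y : ℝ, Dl Λ τ l (x - y) = (l : ℝ) - (cntE Λ τ (x - y)).toReal := by
    intro y
    rw [Dl_eq hd hs]
    push_cast
    rfl
  simp only [heq]
  rw [integral_sub (integrable_const _) hI, hint]
  simp only [integral_const, smul_eq_mul, Measure.real, Measure.restrict_apply_univ]
  rw [← hm, hτ]
  ring

/-! ### The uniform bound -/

theorem exists_large_ball {Ω : Set ℝ} (_hΩ : MeasurableSet Ω) (h0 : 0 < volume Ω)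
    (h1 : volume Ω ≠ ∞) :
    ∃ M : ℝ, 0 < M ∧ 3 / 4 * (volume Ω).toReal ≤ (volume (Ω ∩ Icc (-M) M)).toReal := by
  have hmono : Monotone (fun n : ℕ => Ω ∩ Icc (-(n : ℝ)) n) := by
    intro a b hab
    refine inter_subset_inter_right _ (Icc_subset_Icc ?_ ?_)
    · have : (a : ℝ) ≤ b := by exact_mod_cast hab
      linarith
    · exact_mod_cast hab
  have hU : (⋃ n : ℕ, Ω ∩ Icc (-(n : ℝ)) n) = Ω := by
    rw [← inter_iUnion]
    refine inter_eq_left.2 fun x _ => ?_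
    obtain ⟨n, hn⟩ := exists_nat_ge |x|
    exact mem_iUnion.2 ⟨n, by linarith [neg_abs_le x], by linarith [le_abs_self x]⟩
  have ht := tendsto_measure_iUnion_atTop (μ := (volume : Measure ℝ)) hmono
  rw [hU] at ht
  have ht' : Tendsto (fun n : ℕ => (volume (Ω ∩ Icc (-(n : ℝ)) n)).toReal) atTop
      (𝓝 (volume Ω).toReal) := (ENNReal.tendsto_toReal h1).comp ht
  have hpos : 0 < (volume Ω).toReal := ENNReal.toReal_pos h0.ne' h1
  have hev := ht'.eventually (lt_mem_nhds (show 3 / 4 * (volume Ω).toReal < (volume Ω).toReal by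
    linarith))
  obtain ⟨n, hn, hn1⟩ := (hev.and (eventually_ge_atTop 1)).exists
  exact ⟨n, by exact_mod_cast hn1, hn.le⟩

/-- A bounded function of controlled variation that is annihilated by `1_Ω` is bounded by an
explicit constant. -/
theorem sup_bound {Ω : Set ℝ} (hΩ : MeasurableSet Ω) (h0 : 0 < volume Ω) (h1 : volume Ω ≠ ∞)
    {M K : ℝ} (hM : 3 / 4 * (volume Ω).toReal ≤ (volume (Ω ∩ Icc (-M) M)).toReal)
    (hK : 0 ≤ K) {D : ℝ → ℝ} (hD : Measurable D) {S0 : ℝ} (hb : ∀ x, |D x| ≤ S0)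
    (hvar : ∀ x y, |x - y| ≤ M → |D x - D y| ≤ K) (hz : ∀ x, ∫ y in Ω, D (x - y) = 0) (x : ℝ) :
    |D x| ≤ 3 / 2 * (1 + K) := by
  set m := (volume Ω).toReal with hm
  have hmpos : 0 < m := ENNReal.toReal_pos h0.ne' h1
  have hfin : IsFiniteMeasure (volume.restrict Ω) := ⟨by
    rw [Measure.restrict_apply_univ]; exact lt_top_iff_ne_top.2 h1⟩
  have hbdd : BddAbove (range fun x => |D x|) := ⟨S0, by rintro _ ⟨y, rfl⟩; exact hb y⟩
  set S : ℝ := ⨆ x, |D x| with hS
  have hle : ∀ x, |D x| ≤ S := fun x => le_ciSup hbdd x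
  have hS0 : 0 ≤ S := (abs_nonneg _).trans (hle 0)
  -- one-sided estimate
  have key : ∀ E : ℝ → ℝ, Measurable E → (∀ x, |E x| ≤ S) →
      (∀ x y, |x - y| ≤ M → |E x - E y| ≤ K) → (∀ x, ∫ y in Ω, E (x - y) = 0) →
      ∀ z, S - 1 < E z → S ≤ 3 / 2 * (1 + K) := by
    intro E hE hEb hEv hEz z hzE
    by_contra hcon
    push Not at hcon
    have hI : ∀ T : Set ℝ, Integrable (fun y => E (z - y)) ((volume.restrict Ω).restrict T) := by
      intro T
      refine Integrable.of_bound (hE.comp (measurable_const.sub measurable_id)).aestronglyMeasurable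
        S (ae_of_all _ fun y => ?_)
      exact hEb _
    have hsplit := integral_add_compl (μ := volume.restrict Ω) (f := fun y => E (z - y))
      (measurableSet_Icc (a := -M) (b := M)) (by simpa using hI univ)
    rw [hEz z, Measure.restrict_restrict measurableSet_Icc,
      Measure.restrict_restrict measurableSet_Icc.compl, inter_comm, inter_comm _ Ω] at hsplit
    set p := (volume (Ω ∩ Icc (-M) M)).toReal with hp
    have hpfin : volume (Ω ∩ Icc (-M) M) ≠ ∞ := measure_ne_top_of_subset inter_subset_left h1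
    have hqfin : volume (Ω ∩ (Icc (-M) M)ᶜ) ≠ ∞ := measure_ne_top_of_subset inter_subset_left h1
    have hpq : (volume (Ω ∩ (Icc (-M) M)ᶜ)).toReal = m - p := by
      have h := measure_inter_add_sdiff (μ := (volume : Measure ℝ)) Ω
        (measurableSet_Icc (a := -M) (b := M))
      rw [sdiff_eq] at h
      have h' := congrArg ENNReal.toReal h
      rw [ENNReal.toReal_add hpfin hqfin] at h'
      linarith
    have hI1 : IntegrableOn (fun y => E (z - y)) (Ω ∩ Icc (-M) M) := by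
      have := hI (Icc (-M) M)
      rwa [Measure.restrict_restrict measurableSet_Icc, inter_comm] at this
    have hI2 : IntegrableOn (fun y => E (z - y)) (Ω ∩ (Icc (-M) M)ᶜ) := by
      have := hI (Icc (-M) M)ᶜ
      rwa [Measure.restrict_restrict measurableSet_Icc.compl, inter_comm] at this
    have hc1 : (S - 1 - K) * p ≤ ∫ y in Ω ∩ Icc (-M) M, E (z - y) := by
      have hconst : ∫ _y in Ω ∩ Icc (-M) M, (S - 1 - K) = (S - 1 - K) * p := by
        simp only [integral_const, smul_eq_mul, Measure.real, Measure.restrict_apply_univ]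
        rw [← hp, mul_comm]
      rw [← hconst]
      refine setIntegral_mono_on (integrableOn_const hpfin) hI1
        (hΩ.inter measurableSet_Icc) fun y hy => ?_
      have h3 := hEv z (z - y) (by
        rw [show z - (z - y) = y by ring, abs_le]; exact ⟨hy.2.1, hy.2.2⟩)
      have h4 := (abs_le.1 h3).2
      linarith
    have hc2 : (-S) * (m - p) ≤ ∫ y in Ω ∩ (Icc (-M) M)ᶜ, E (z - y) := by
      have hconst : ∫ _y in Ω ∩ (Icc (-M) M)ᶜ, (-S) = (-S) * (m - p) := by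
        simp only [integral_const, smul_eq_mul, Measure.real, Measure.restrict_apply_univ]
        rw [hpq, mul_comm]
      rw [← hconst]
      refine setIntegral_mono_on (integrableOn_const hqfin) hI2
        (hΩ.inter measurableSet_Icc.compl) fun y hy => ?_
      exact (abs_le.1 (hEb (z - y))).1
    have hS1 : 0 < S - 1 - K := by linarith
    have h5 : (S - 1 - K) * (3 / 4 * m) ≤ (S - 1 - K) * p :=
      mul_le_mul_of_nonneg_left hM hS1.le
    have h6 : S * (m - p) ≤ S * (1 / 4 * m) := mul_le_mul_of_nonneg_left (by linarith) hS0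
    have h7 : (S - 1 - K) * (3 / 4 * m) ≤ S * (1 / 4 * m) := by linarith
    have h8 : (S - 1 - K) * 3 ≤ S := by
      have : ((S - 1 - K) * 3 - S) * (m / 4) ≤ 0 := by linarith
      by_contra hcc
      push Not at hcc
      have : 0 < ((S - 1 - K) * 3 - S) * (m / 4) := mul_pos (by linarith) (by linarith)
      linarith
    linarith
  refine (hle x).trans ?_
  obtain ⟨z, hz1⟩ := exists_lt_of_lt_ciSup (show S - 1 < ⨆ x, |D x| by rw [← hS]; linarith)
  rcases le_total 0 (D z) with hpos | hneg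
  · rw [abs_of_nonneg hpos] at hz1
    exact key D hD hle hvar hz z hz1
  · rw [abs_of_nonpos hneg] at hz1
    refine key (fun x => -D x) hD.neg (fun x => by rw [abs_neg]; exact hle x) (fun x y hxy => ?_)
      (fun x => ?_) z hz1
    · rw [show -D x - -D y = -(D x - D y) by ring, abs_neg]
      exact hvar x y hxy
    · rw [integral_neg, hz x, neg_zero]

/-- **Uniform bound** for the difference functions. -/
theorem Dl_bounded {Ω : Set ℝ} (hΩ : MeasurableSet Ω) (h0 : 0 < volume Ω) (h1 : volume Ω ≠ ∞) :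
    ∃ C : ℝ, ∀ Λ, IsTiling Ω Λ → ∀ l : ℕ, ∀ x, |Dl Λ (l * (volume Ω).toReal) l x| ≤ C := by
  obtain ⟨d0, hd, hsep⟩ := separated hΩ h0 h1
  obtain ⟨M, hM, hMp⟩ := exists_large_ball hΩ h0 h1
  refine ⟨3 / 2 * (1 + (M / d0 + 1)), fun Λ hΛ l x => ?_⟩
  have hs : Sep Λ d0 := hsep Λ hΛ
  have hm0 : 0 ≤ (volume Ω).toReal := ENNReal.toReal_nonneg
  have hτ : 0 ≤ (l : ℝ) * (volume Ω).toReal := by positivity
  refine sup_bound hΩ h0 h1 hMp (by positivity) (Dl_measurable' hΛ.1 hd hs _ _)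
    (fun x => Dl_abs_le hd hs hτ _ x) (fun x y hxy => ?_)
    (fun x => Dl_annihilated' h1 hΛ hd hs l x) x
  refine (Dl_abs_sub hd hs hτ _ x y).trans ?_
  have : |x - y| / d0 ≤ M / d0 := div_le_div_of_nonneg_right hxy hd.le
  linarith

/-! ### Versions without an explicit separation constant -/

theorem Dl_measurable {Ω Λ : Set ℝ} (hΩ : MeasurableSet Ω) (h0 : 0 < volume Ω)
    (h1 : volume Ω ≠ ∞) (hΛ : IsTiling Ω Λ) (τ : ℝ) (l : ℤ) : Measurable (Dl Λ τ l) := by
  obtain ⟨d0, hd, hsep⟩ := separated hΩ h0 h1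
  exact Dl_measurable' hΛ.1 hd (hsep Λ hΛ) τ l

theorem Dl_annihilated {Ω Λ : Set ℝ} (hΩ : MeasurableSet Ω) (h0 : 0 < volume Ω)
    (h1 : volume Ω ≠ ∞) (hΛ : IsTiling Ω Λ) (l : ℕ) (x : ℝ) :
    ∫ y in Ω, Dl Λ (l * (volume Ω).toReal) l (x - y) = 0 := by
  obtain ⟨d0, hd, hsep⟩ := separated hΩ h0 h1
  exact Dl_annihilated' h1 hΛ hd (hsep Λ hΛ) l x

end Pool.Agent.Helper99.Tile
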