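import Pool.Agent.Helper75.Tile.Defs
import Pool.Agent.Helper99.Tile.Band

set_option autoImplicit false

open MeasureTheory Set Real
open Pool.Agent.Helper75.Tile

namespace Pool.Agent.Helper99.Tile

/-- Chebyshev polynomials of the first kind, evaluated, by their recursion. -/
noncomputable def ch : ℕ → ℝ → ℝ
  | 0, _ => 1
  | 1, x => x
  | (n + 2), x => 2 * x * ch (n + 1) x - ch n x

theorem ch_eq (n : ℕ) (x : ℝ) : (Polynomial.Chebyshev.T ℝ n).eval x = ch n x := by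
  induction n using Nat.strong_induction_on with
  | _ n ih =>
    match n, ih with
    | 0, _ => simp [ch]
    | 1, _ => simp [ch]
    | (n + 2), ih =>
      have h1 := ih (n + 1) (by omega)
      have h0 := ih n (by omega)
      have hr := Polynomial.Chebyshev.T_add_two ℝ (n : ℤ)
      push_cast at h1 ⊢
      rw [hr]
      simp only [Polynomial.eval_sub, Polynomial.eval_mul, Polynomial.eval_X,
        Polynomial.eval_ofNat, h1, h0, ch]

theorem wt_eq (k : ℕ) (θ : ℝ) : wt k θ = ch k (1 + cos θ) * sinc θ ^ (2 * k) := by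
  rw [wt, ch_eq]

theorem ch_cos (n : ℕ) (φ : ℝ) : ch n (cos φ) = cos (n * φ) := by
  rw [← ch_eq]
  simp

theorem abs_ch_le_one (n : ℕ) {x : ℝ} (hx : |x| ≤ 1) : |ch n x| ≤ 1 := by
  have hx' := abs_le.1 hx
  have : x = cos (arccos x) := (cos_arccos hx'.1 hx'.2).symm
  rw [this, ch_cos]
  exact abs_cos_le_one _

theorem ch_continuous (n : ℕ) : Continuous (ch n) := by
  have : ch n = fun x => (Polynomial.Chebyshev.T ℝ n).eval x := by
    ext x; rw [ch_eq]
  rw [this]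
  exact Polynomial.continuous _

/-- growth to the right of `1` -/
theorem ch_lower_aux {t : ℝ} (ht : 0 ≤ t) (n : ℕ) :
    1 + (n : ℝ) ^ 2 * t ≤ ch n (1 + t) ∧ (2 * n + 1) * t ≤ ch (n + 1) (1 + t) - ch n (1 + t) := by
  induction n with
  | zero => simp [ch]
  | succ n ih =>
    obtain ⟨h1, h2⟩ := ih
    have h3 : 1 + ((n + 1 : ℕ) : ℝ) ^ 2 * t ≤ ch (n + 1) (1 + t) := by
      push_cast
      nlinarith
    refine ⟨h3, ?_⟩
    have h4 : ch (n + 1 + 1) (1 + t) = 2 * (1 + t) * ch (n + 1) (1 + t) - ch n (1 + t) := rfl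
    rw [h4]
    have h5 : 1 ≤ ch (n + 1) (1 + t) := by
      refine le_trans ?_ h3
      have : 0 ≤ ((n + 1 : ℕ) : ℝ) ^ 2 * t := by positivity
      linarith
    push_cast
    nlinarith

theorem ch_lower {t : ℝ} (ht : 0 ≤ t) (n : ℕ) : 1 + (n : ℝ) ^ 2 * t ≤ ch n (1 + t) :=
  (ch_lower_aux ht n).1

theorem ch_upper_aux {t : ℝ} (ht : 0 ≤ t) (ht1 : t ≤ 1) (n : ℕ) :
    ch n (1 + t) ≤ 4 ^ n ∧ ch (n + 1) (1 + t) ≤ 4 ^ (n + 1) := by
  induction n with
  | zero =>
    simp only [ch]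
    constructor <;> norm_num
    linarith
  | succ n ih =>
    refine ⟨ih.2, ?_⟩
    have h4 : ch (n + 1 + 1) (1 + t) = 2 * (1 + t) * ch (n + 1) (1 + t) - ch n (1 + t) := rfl
    rw [h4]
    have h0 : 0 ≤ ch n (1 + t) := le_trans (by positivity) (ch_lower ht n)
    have h1 : 0 ≤ ch (n + 1) (1 + t) := le_trans (by positivity) (ch_lower ht (n + 1))
    have h2 := ih.2
    have : 2 * (1 + t) * ch (n + 1) (1 + t) ≤ 4 * 4 ^ (n + 1) := by
      have : 2 * (1 + t) ≤ 4 := by linarith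
      exact mul_le_mul this h2 h1 (by norm_num)
    rw [pow_succ (4 : ℝ) (n + 1)]
    linarith

theorem ch_upper {t : ℝ} (ht : 0 ≤ t) (ht1 : t ≤ 1) (n : ℕ) : ch n (1 + t) ≤ 4 ^ n :=
  (ch_upper_aux ht ht1 n).1

theorem abs_ch_le (n : ℕ) (θ : ℝ) : |ch n (1 + cos θ)| ≤ 4 ^ n := by
  have h1 := neg_one_le_cos θ
  have h2 := cos_le_one θ
  by_cases h : 0 ≤ cos θ
  · rw [abs_of_nonneg (le_trans (by positivity) (ch_lower h n))]
    exact ch_upper h h2 n
  · push Not at h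
    refine (abs_ch_le_one n ?_).trans (one_le_pow₀ (by norm_num))
    rw [abs_le]
    constructor <;> linarith

theorem abs_ch_le_one' (n : ℕ) {θ : ℝ} (h : cos θ ≤ 0) : |ch n (1 + cos θ)| ≤ 1 := by
  have h1 := neg_one_le_cos θ
  refine abs_ch_le_one n ?_
  rw [abs_le]
  constructor <;> linarith

theorem wt_continuous (k : ℕ) : Continuous (wt k) := by
  have : wt k = fun θ => ch k (1 + cos θ) * sinc θ ^ (2 * k) := by
    ext θ; exact wt_eq k θ
  rw [this]
  have h1 := ch_continuous k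
  have h2 : Continuous sinc := continuous_sinc
  fun_prop

theorem abs_wt_le (k : ℕ) (θ : ℝ) : |wt k θ| ≤ 4 ^ k := by
  rw [wt_eq, abs_mul, abs_pow]
  have h1 := abs_ch_le k θ
  have h2 : |sinc θ| ^ (2 * k) ≤ 1 := pow_le_one₀ (abs_nonneg _) (abs_sinc_le_one θ)
  calc |ch k (1 + cos θ)| * |sinc θ| ^ (2 * k) ≤ 4 ^ k * 1 :=
        mul_le_mul h1 h2 (by positivity) (by positivity)
    _ = 4 ^ k := mul_one _

theorem wt_neg (k : ℕ) (θ : ℝ) : wt k (-θ) = wt k θ := by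
  rw [wt, wt, cos_neg, sinc_neg]

theorem two_div_pi_le_sinc {θ : ℝ} (h : |θ| ≤ π / 2) : 2 / π ≤ sinc θ := by
  have key : ∀ θ : ℝ, 0 ≤ θ → θ ≤ π / 2 → 2 / π ≤ sinc θ := by
    intro θ h0 h1
    rcases h0.eq_or_lt with h0 | h0
    · rw [← h0, sinc_zero, div_le_one pi_pos]
      linarith [pi_gt_three]
    · rw [sinc_of_ne_zero h0.ne', le_div_iff₀ h0]
      exact mul_le_sin h0.le h1
  rcases le_total 0 θ with h0 | h0
  · exact key θ h0 ((le_abs_self _).trans h)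
  · rw [← sinc_neg]
    exact key (-θ) (by linarith) ((neg_le_abs _).trans h)

theorem cos_lower {θ : ℝ} (h : |θ| ≤ π / 2) : (2 / π) * (π / 2 - |θ|) ≤ cos θ := by
  rw [← cos_abs, ← sin_pi_div_two_sub]
  exact mul_le_sin (by linarith) (by linarith [abs_nonneg θ])

theorem wt_lower (k : ℕ) {θ : ℝ} (h : |θ| ≤ π / 2) :
    (2 / π) ^ (2 * k) * (1 + (k : ℝ) ^ 2 * ((2 / π) * (π / 2 - |θ|))) ≤ wt k θ := by
  rw [wt_eq, mul_comm]
  have h0 : 0 ≤ (2 / π) * (π / 2 - |θ|) :=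
    mul_nonneg (by positivity) (by linarith)
  have h1 := cos_lower h
  have h2 : 1 + (k : ℝ) ^ 2 * ((2 / π) * (π / 2 - |θ|)) ≤ ch k (1 + cos θ) := by
    refine le_trans ?_ (ch_lower (h0.trans h1) k)
    have := mul_le_mul_of_nonneg_left h1 (sq_nonneg (k : ℝ))
    linarith
  have h3 : (2 / π) ^ (2 * k) ≤ sinc θ ^ (2 * k) :=
    pow_le_pow_left₀ (by positivity) (two_div_pi_le_sinc h) _
  exact mul_le_mul h2 h3 (by positivity) (le_trans (by positivity) h2)

theorem wt_nonneg (k : ℕ) {θ : ℝ} (h : |θ| ≤ π / 2) : 0 ≤ wt k θ := by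
  refine le_trans ?_ (wt_lower k h)
  have h0 : 0 ≤ (2 / π) * (π / 2 - |θ|) :=
    mul_nonneg (by positivity) (by linarith)
  positivity

theorem wt_lower' (k : ℕ) {θ : ℝ} (h : |θ| ≤ π / 2) :
    (2 / π) ^ (2 * k) * ((k : ℝ) ^ 2 * (2 / π) * (π / 2 - |θ|)) ≤ wt k θ := by
  refine le_trans ?_ (wt_lower k h)
  refine mul_le_mul_of_nonneg_left ?_ (by positivity)
  rw [mul_assoc]
  linarith

/-- `|sinc θ| ≤ 1/|θ|` -/
theorem abs_sinc_le_inv (θ : ℝ) (h : θ ≠ 0) : |sinc θ| ≤ |θ|⁻¹ := by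
  rw [sinc_of_ne_zero h, abs_div, div_eq_mul_inv]
  exact mul_le_of_le_one_left (by positivity) (abs_sin_le_one θ)

theorem wt_le_inv_sq {k : ℕ} (hk : 1 ≤ k) (θ : ℝ) :
    |wt k θ| ≤ 2 * 4 ^ k * (1 + θ ^ 2)⁻¹ := by
  rw [wt_eq, abs_mul, abs_pow]
  have h1 := abs_ch_le k θ
  have h2 : |sinc θ| ^ (2 * k) ≤ |sinc θ| ^ 2 :=
    pow_le_pow_of_le_one (abs_nonneg _) (abs_sinc_le_one θ) (by omega)
  have h3 : |sinc θ| ^ 2 ≤ 2 * (1 + θ ^ 2)⁻¹ := by
    rw [← div_eq_mul_inv, le_div_iff₀ (by positivity)]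
    have h4 : |sinc θ| ^ 2 ≤ 1 := pow_le_one₀ (abs_nonneg _) (abs_sinc_le_one θ)
    have h5 : |sinc θ| ^ 2 * θ ^ 2 ≤ 1 := by
      by_cases hz : θ = 0
      · simp [hz]
      · have : |sinc θ| * |θ| ≤ 1 := by
          have := abs_sinc_le_inv θ hz
          rwa [← one_div, le_div_iff₀ (abs_pos.2 hz)] at this
        rw [← sq_abs θ, ← mul_pow]
        exact pow_le_one₀ (by positivity) this
    linarith
  calc |ch k (1 + cos θ)| * |sinc θ| ^ (2 * k) ≤ 4 ^ k * (2 * (1 + θ ^ 2)⁻¹) :=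
        mul_le_mul h1 (h2.trans h3) (by positivity) (by positivity)
    _ = 2 * 4 ^ k * (1 + θ ^ 2)⁻¹ := by ring

theorem wt_integrable {k : ℕ} (hk : 1 ≤ k) : Integrable (wt k) := by
  refine Integrable.mono' (integrable_inv_one_add_sq.const_mul (2 * 4 ^ k))
    (wt_continuous k).aestronglyMeasurable (Filter.Eventually.of_forall fun θ => ?_)
  exact wt_le_inv_sq hk θ

theorem wt_sq_integrable {k : ℕ} (hk : 1 ≤ k) : Integrable (fun θ => wt k θ ^ 2) := by
  refine Integrable.mono' ((wt_integrable hk).norm.const_mul (4 ^ k))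
    ((wt_continuous k).pow 2).aestronglyMeasurable (Filter.Eventually.of_forall fun θ => ?_)
  rw [norm_pow, Real.norm_eq_abs, sq]
  exact mul_le_mul_of_nonneg_right (abs_wt_le k θ) (abs_nonneg _)

/-- pointwise tail bounds -/
theorem wt_sq_le_mid (k : ℕ) {θ : ℝ} (h : π / 2 ≤ θ) (h' : θ ≤ 3 * π / 2) :
    wt k θ ^ 2 ≤ θ ^ (-(4 * (k : ℝ))) := by
  have hθ : 0 < θ := lt_of_lt_of_le (by positivity) h
  have hc : cos θ ≤ 0 := by
    apply cos_nonpos_of_pi_div_two_le_of_le h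
    linarith
  have h1 := abs_ch_le_one' k hc
  have h2 : |sinc θ| ≤ |θ|⁻¹ := abs_sinc_le_inv θ hθ.ne'
  rw [abs_of_pos hθ] at h2
  have h3 : |wt k θ| ≤ θ⁻¹ ^ (2 * k) := by
    rw [wt_eq, abs_mul, abs_pow]
    calc |ch k (1 + cos θ)| * |sinc θ| ^ (2 * k) ≤ 1 * θ⁻¹ ^ (2 * k) :=
          mul_le_mul h1 (pow_le_pow_left₀ (abs_nonneg _) h2 _) (by positivity) (by positivity)
      _ = _ := one_mul _
  have h4 : θ ^ (-(4 * (k : ℝ))) = (θ⁻¹ ^ (2 * k)) ^ 2 := by
    rw [← pow_mul, inv_pow, rpow_neg hθ.le]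
    congr 1
    rw [← rpow_natCast]
    congr 1
    push_cast
    ring
  rw [h4, ← sq_abs]
  exact pow_le_pow_left₀ (abs_nonneg _) h3 2

theorem wt_sq_le_far (k : ℕ) {θ : ℝ} (h : π / 2 ≤ θ) :
    wt k θ ^ 2 ≤ 16 ^ k * θ ^ (-(4 * (k : ℝ))) := by
  have hθ : 0 < θ := lt_of_lt_of_le (by positivity) h
  have h1 := abs_ch_le k θ
  have h2 : |sinc θ| ≤ |θ|⁻¹ := abs_sinc_le_inv θ hθ.ne'
  rw [abs_of_pos hθ] at h2
  have h3 : |wt k θ| ≤ 4 ^ k * θ⁻¹ ^ (2 * k) := by
    rw [wt_eq, abs_mul, abs_pow]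
    exact mul_le_mul h1 (pow_le_pow_left₀ (abs_nonneg _) h2 _) (by positivity) (by positivity)
  have h4 : 16 ^ k * θ ^ (-(4 * (k : ℝ))) = (4 ^ k * θ⁻¹ ^ (2 * k)) ^ 2 := by
    rw [mul_pow, ← pow_mul, ← pow_mul, inv_pow, rpow_neg hθ.le, mul_comm k 2, pow_mul (4 : ℝ) 2 k]
    norm_num
    rw [← rpow_natCast]
    congr 1
    push_cast
    ring
  rw [h4, ← sq_abs]
  exact pow_le_pow_left₀ (abs_nonneg _) h3 2

theorem integral_tail_right {k : ℕ} (hk : 1 ≤ k) :
    ∫ θ in Ioi (π / 2), wt k θ ^ 2 ≤ (2 / π) ^ (4 * k) * (2 * π / (3 * k)) := by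
  have hk1 : (1 : ℝ) ≤ k := by exact_mod_cast hk
  have ha : -(4 * (k : ℝ)) < -1 := by linarith
  have hp : 0 < π / 2 := by positivity
  have hp3 : 0 < 3 * π / 2 := by positivity
  have hI1 : IntegrableOn (fun θ : ℝ => θ ^ (-(4 * (k : ℝ)))) (Ioi (π / 2)) :=
    integrableOn_Ioi_rpow_of_lt ha hp
  have hI2 : IntegrableOn (fun θ : ℝ => 16 ^ k * θ ^ (-(4 * (k : ℝ)))) (Ioi (3 * π / 2)) :=
    (integrableOn_Ioi_rpow_of_lt ha hp3).const_mul _
  have hW := wt_sq_integrable hk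
  have hsplit : ∫ θ in Ioi (π / 2), wt k θ ^ 2
      = (∫ θ in Ioc (π / 2) (3 * π / 2), wt k θ ^ 2) + ∫ θ in Ioi (3 * π / 2), wt k θ ^ 2 := by
    rw [← setIntegral_union (Ioc_disjoint_Ioi le_rfl) measurableSet_Ioi hW.integrableOn
      hW.integrableOn, Ioc_union_Ioi_eq_Ioi (by linarith)]
  have h1 : ∫ θ in Ioc (π / 2) (3 * π / 2), wt k θ ^ 2
      ≤ ∫ θ in Ioi (π / 2), θ ^ (-(4 * (k : ℝ))) := by
    calc ∫ θ in Ioc (π / 2) (3 * π / 2), wt k θ ^ 2
        ≤ ∫ θ in Ioc (π / 2) (3 * π / 2), θ ^ (-(4 * (k : ℝ))) := by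
          refine setIntegral_mono_on hW.integrableOn (hI1.mono_set Ioc_subset_Ioi_self)
            measurableSet_Ioc fun θ hθ => wt_sq_le_mid k hθ.1.le hθ.2
      _ ≤ _ := by
          refine setIntegral_mono_set hI1 ?_ (Ioc_subset_Ioi_self.eventuallyLE)
          refine (ae_restrict_mem measurableSet_Ioi).mono fun θ hθ => ?_
          have : 0 < θ := lt_trans hp hθ
          positivity
  have h2 : ∫ θ in Ioi (3 * π / 2), wt k θ ^ 2
      ≤ ∫ θ in Ioi (3 * π / 2), 16 ^ k * θ ^ (-(4 * (k : ℝ))) := by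
    refine setIntegral_mono_on hW.integrableOn hI2 measurableSet_Ioi fun θ hθ => ?_
    refine wt_sq_le_far k ?_
    have : 3 * π / 2 < θ := hθ
    linarith [pi_pos]
  have e1 : ∫ θ in Ioi (π / 2), θ ^ (-(4 * (k : ℝ))) =
      (2 / π) ^ (4 * k) * ((π / 2) / (4 * k - 1)) := by
    rw [integral_Ioi_rpow_of_lt ha hp]
    have : (π / 2) ^ (-(4 * (k : ℝ)) + 1) = (2 / π) ^ (4 * k) * (π / 2) := by
      rw [rpow_add hp, rpow_one, rpow_neg hp.le]
      congr 1
      have : (2 / π) ^ (4 * k) = ((π / 2) ^ (4 * k))⁻¹ := by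
        rw [← inv_pow, inv_div]
      rw [this]
      congr 1
      rw [← rpow_natCast]
      congr 1
      push_cast
      ring
    rw [this]
    have h0 : (4 * (k : ℝ) - 1) ≠ 0 := by linarith
    have h0' : (-(4 * (k : ℝ)) + 1) ≠ 0 := by linarith
    field_simp
    ring
  have e2 : ∫ θ in Ioi (3 * π / 2), 16 ^ k * θ ^ (-(4 * (k : ℝ))) =
      (2 / π) ^ (4 * k) * ((16 / 81) ^ k * ((3 * π / 2) / (4 * k - 1))) := by
    rw [integral_const_mul, integral_Ioi_rpow_of_lt ha hp3]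
    have : (3 * π / 2) ^ (-(4 * (k : ℝ)) + 1) =
        (2 / π) ^ (4 * k) * ((1 / 81) ^ k * (3 * π / 2)) := by
      rw [rpow_add hp3, rpow_one, rpow_neg hp3.le, ← mul_assoc]
      congr 1
      have : (2 / π) ^ (4 * k) * (1 / 81) ^ k = ((3 * π / 2) ^ (4 * k))⁻¹ := by
        rw [← inv_pow, inv_div, pow_mul, pow_mul, ← mul_pow]
        congr 1
        field_simp
        norm_num
      rw [this]
      congr 1
      rw [← rpow_natCast]
      congr 1
      push_cast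
      ring
    rw [this]
    have h0 : (4 * (k : ℝ) - 1) ≠ 0 := by linarith
    have h0' : (-(4 * (k : ℝ)) + 1) ≠ 0 := by linarith
    have h16 : (16 / 81 : ℝ) ^ k = 16 ^ k * (1 / 81) ^ k := by
      rw [← mul_pow]; norm_num
    rw [h16]
    field_simp
    ring
  rw [hsplit]
  refine (add_le_add h1 h2).trans ?_
  rw [e1, e2, ← mul_add]
  refine mul_le_mul_of_nonneg_left ?_ (by positivity)
  have h81 : (16 / 81 : ℝ) ^ k ≤ 16 / 81 := by
    calc (16 / 81 : ℝ) ^ k ≤ (16 / 81) ^ 1 := pow_le_pow_of_le_one (by norm_num) (by norm_num) hk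
      _ = _ := pow_one _
  have hden : 0 < 4 * (k : ℝ) - 1 := by linarith
  have hstep : (π / 2) / (4 * k - 1) + (16 / 81) ^ k * ((3 * π / 2) / (4 * k - 1))
      ≤ π / (4 * k - 1) := by
    have : (16 / 81 : ℝ) ^ k * ((3 * π / 2) / (4 * k - 1)) ≤ 16 / 81 * ((3 * π / 2) / (4 * k - 1)) :=
      mul_le_mul_of_nonneg_right h81 (by positivity)
    have h' : (π / 2) / (4 * k - 1) + 16 / 81 * ((3 * π / 2) / (4 * k - 1))
        = (π / (4 * k - 1)) * (1 / 2 + 16 / 81 * (3 / 2)) := by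
      ring
    have h'' : (π / (4 * k - 1)) * (1 / 2 + 16 / 81 * (3 / 2)) ≤ (π / (4 * k - 1)) * 1 :=
      mul_le_mul_of_nonneg_left (by norm_num) (by positivity)
    linarith
  refine hstep.trans ?_
  rw [div_le_div_iff₀ hden (by positivity)]
  nlinarith [pi_pos]

theorem wt_tail {k : ℕ} (hk : 1 ≤ k) :
    ∫ θ in {θ : ℝ | π / 2 < |θ|}, wt k θ ^ 2 ≤ (2 / π) ^ (4 * k) * (4 * π / (3 * k)) := by
  have hset : {θ : ℝ | π / 2 < |θ|} = Iio (-(π / 2)) ∪ Ioi (π / 2) := by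
    ext θ
    simp only [mem_ofPred_eq, mem_union, mem_Iio, mem_Ioi, lt_abs]
    constructor
    · rintro (h | h)
      · exact Or.inr h
      · exact Or.inl (by linarith)
    · rintro (h | h)
      · exact Or.inr (by linarith)
      · exact Or.inl h
  have hW := wt_sq_integrable hk
  have hdisj : Disjoint (Iio (-(π / 2))) (Ioi (π / 2)) := by
    rw [Set.disjoint_left]
    intro θ h1 h2
    simp only [mem_Iio, mem_Ioi] at h1 h2
    linarith [pi_pos]
  rw [hset, setIntegral_union hdisj measurableSet_Ioi hW.integrableOn hW.integrableOn]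
  have hsymm : ∫ θ in Iio (-(π / 2)), wt k θ ^ 2 = ∫ θ in Ioi (π / 2), wt k θ ^ 2 := by
    have := integral_comp_neg_Ioi (π / 2) (fun θ => wt k θ ^ 2)
    simp only [wt_neg] at this
    rw [this, integral_Iic_eq_integral_Iio]
  rw [hsymm]
  have := integral_tail_right hk
  calc _ ≤ (2 / π) ^ (4 * k) * (2 * π / (3 * k)) + (2 / π) ^ (4 * k) * (2 * π / (3 * k)) :=
        add_le_add this this
    _ = _ := by ring

/-- The rescaled weights have spectrum in `[-3σ, 3σ]`. -/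
theorem bandLimited_ch {ω : ℝ} (n : ℕ) :
    BandLimited (n * |ω|) (fun x => ((ch n (1 + cos (ω * x)) : ℝ) : ℂ)) := by
  induction n using Nat.strong_induction_on with
  | _ n ih =>
    match n, ih with
    | 0, _ =>
      refine (bandLimited_const (τ := ((0 : ℕ) : ℝ) * |ω|) (by simp) 1).congr fun x => ?_
      simp [ch]
    | 1, _ =>
      have h := (bandLimited_const (τ := |ω|) (abs_nonneg _) 1).add (bandLimited_cos ω)
      refine (h.mono ?_).congr fun x => ?_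
      · simp
      · simp [ch]
    | (n + 2), ih =>
      have h1 := ih (n + 1) (by omega)
      have h0 := ih n (by omega)
      have hc := ((bandLimited_const (τ := |ω|) (abs_nonneg _) 1).add
        (bandLimited_cos ω)).const_mul 2
      have h2 := (hc.mul h1).mono (τ' := ((n + 2 : ℕ) : ℝ) * |ω|) (by push_cast; linarith)
      have h3 := (h0.const_mul (-1)).mono (τ' := ((n + 2 : ℕ) : ℝ) * |ω|)
        (by push_cast; nlinarith [abs_nonneg ω])
      refine (h2.add h3).congr fun x => ?_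
      simp only [ch]
      push_cast
      ring

theorem bandLimited_wt {k : ℕ} (hk : 1 ≤ k) {σ : ℝ} (hσ : 0 < σ) (c : ℝ) :
    BandLimited (3 * σ) (fun x => ((wt k (σ * (x - c) / k) : ℝ) : ℂ)) := by
  have hk0 : (0 : ℝ) < k := by exact_mod_cast hk
  have h1 := bandLimited_ch (ω := σ / k) k
  have h2 := (bandLimited_sinc (σ / k)).pow (2 * k)
  have h3 := ((h1.mul h2).mono (τ' := 3 * σ) ?_).translate c
  · refine h3.congr fun x => ?_
    have : σ * (x - c) / k = σ / k * (x - c) := by ring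
    rw [this, wt_eq]
    push_cast
    ring
  · rw [abs_of_pos (by positivity)]
    push_cast
    have : (k : ℝ) * (σ / k) = σ := by field_simp
    nlinarith

end Pool.Agent.Helper99.Tile
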